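import Pool.Agent.Q170.DDC.Main

/-!
The maximum size of a distinct difference configuration of diameter at most `d` in the free
group of rank `n ≥ 2` is `(2n - 1)^(d/3 + O(1))`.
-/

namespace Pool.Agent.Results.MP_db30a9_co.OrderOfMagnitude

/-- A set `D` in the free group of rank `n` is a distinct difference configuration if the
elements `g⁻¹ h`, taken over all ordered pairs `(g, h)` of distinct elements of `D`, are
pairwise distinct. -/
def IsDDC {n : ℕ} (D : Set (FreeGroup (Fin n))) : Prop :=
  ∀ g ∈ D, ∀ h ∈ D, ∀ g' ∈ D, ∀ h' ∈ D, g ≠ h → g' ≠ h' → (g, h) ≠ (g', h') →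
    g⁻¹ * h ≠ g'⁻¹ * h'

/-- `D` has diameter at most `d` in the word metric (`FreeGroup.norm g` is the length of the
reduced word which represents `g`). -/
def HasDiameterAtMost {n : ℕ} (d : ℕ) (D : Set (FreeGroup (Fin n))) : Prop :=
  ∀ g ∈ D, ∀ h ∈ D, (g⁻¹ * h).norm ≤ d

/-- The set of the cardinalities of the (finite) distinct difference configurations of
diameter at most `d` in the free group of rank `n`. -/
def Cardinalities (n d : ℕ) : Set ℕ :=
  {k | ∃ D : Finset (FreeGroup (Fin n)), IsDDC (D : Set (FreeGroup (Fin n))) ∧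
    HasDiameterAtMost d (D : Set (FreeGroup (Fin n))) ∧ D.card = k}

/-- `m n d` is the maximum cardinality of a distinct difference configuration of diameter at
most `d` in the free group of rank `n`. -/
noncomputable def m (n d : ℕ) : ℕ := sSup (Cardinalities n d)

/-- For all `n ≥ 2` and all `d`: every set of diameter at most `d` in the free group of rank
`n` is finite; the maximum cardinality `m n d` exists (it is attained); and
`|log_(2n-1) m(n,d) - d/3| ≤ 20`. So `m(n,d) = (2n-1)^(d/3 + O(1))`, even with an absolute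
constant in the exponent. -/
theorem result (n : ℕ) (hn : 2 ≤ n) (d : ℕ) :
    (∀ D : Set (FreeGroup (Fin n)), HasDiameterAtMost d D → D.Finite) ∧
    IsGreatest (Cardinalities n d) (m n d) ∧
    |Real.logb (2 * n - 1) (m n d) - d / 3| ≤ 20 := by
  have hs : Cardinalities n d = Q170.DDC.Sizes n d := by
    ext k
    unfold Cardinalities Q170.DDC.Sizes
    simp only [Set.mem_ofPred_eq]
    constructor
    · rintro ⟨D, h1, h2, h3⟩
      refine ⟨D, ?_, h2, h3⟩
      intro g hg h hh g' hg' h' hh' hne hne' he
      by_contra hcon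
      refine h1 g hg h hh g' hg' h' hh' hne hne' ?_ he
      intro h5
      exact hcon ⟨(Prod.mk.inj h5).1, (Prod.mk.inj h5).2⟩
    · rintro ⟨D, h1, h2, h3⟩
      refine ⟨D, ?_, h2, h3⟩
      intro g hg h hh g' hg' h' hh' hne hne' hp he
      obtain ⟨e1, e2⟩ := h1 g hg h hh g' hg' h' hh' hne hne' he
      exact hp (by rw [e1, e2])
  have h1 : m n d = sSup (Q170.DDC.Sizes n d) := by rw [m, hs]
  refine ⟨fun D hD => Q170.DDC.finite_of_diam hD, ?_, ?_⟩
  · rw [hs, h1]
    exact Q170.DDC.isGreatest hn d
  · have h2 := Q170.DDC.main hn d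
    have h3 : ((2 * n - 1 : ℕ) : ℝ) = 2 * n - 1 := by
      rw [Nat.cast_sub (by omega)]
      push_cast
      ring
    rw [h3, ← h1] at h2
    exact h2

end Pool.Agent.Results.MP_db30a9_co.OrderOfMagnitude
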